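import Mathlib
import Pool.Agent.X100.SUC.Line
import Pool.Agent.Helper523.LL.Pompeiu

set_option autoImplicit false

open MeasureTheory Set Filter Topology
open scoped ENNReal Convolution ContDiff

namespace Pool.Agent.X100.QL

open Pool.Agent.X100.SUC (db db_mul CR CR_lt_top cauchy_loc int_ball)

/-- the Cauchy kernel -/
noncomputable def ker (w : ℂ) : ℂ := ((Real.pi : ℂ) * w)⁻¹

lemma ker_enorm {w : ℂ} (hw : w ≠ 0) : ‖ker w‖ₑ ≤ ‖w‖ₑ⁻¹ := by
  unfold ker
  have hp : (Real.pi : ℂ) ≠ 0 := by exact_mod_cast Real.pi_ne_zero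
  rw [enorm_inv (mul_ne_zero hp hw), enorm_mul]
  refine ENNReal.inv_le_inv.2 ?_
  have h2 : (1 : ℝ≥0∞) ≤ ‖(Real.pi : ℂ)‖ₑ := by
    rw [← ofReal_norm, Complex.norm_real, Real.norm_of_nonneg Real.pi_pos.le,
      ← ENNReal.ofReal_one]
    exact ENNReal.ofReal_le_ofReal (by linarith [Real.pi_gt_three])
  calc ‖w‖ₑ = 1 * ‖w‖ₑ := (one_mul _).symm
    _ ≤ _ := mul_le_mul_left h2 _

lemma ker_measurable : Measurable ker := by
  unfold ker; fun_prop

lemma ker_locInt : LocallyIntegrable ker := by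
  intro x
  refine ⟨Metric.ball 0 (‖x‖ + 1), Metric.isOpen_ball.mem_nhds (by simp), ?_⟩
  refine (int_ball (a := 1) (by norm_num) (‖x‖ + 1)).mono' ker_measurable.aestronglyMeasurable ?_
  refine ae_of_all _ fun w => ?_
  unfold ker
  rw [norm_inv, norm_mul, Complex.norm_real, Real.norm_of_nonneg Real.pi_pos.le,
    Real.rpow_neg_one, mul_inv]
  have h1 : Real.pi⁻¹ ≤ 1 := inv_le_one_of_one_le₀ (by linarith [Real.pi_gt_three])
  have h2 : 0 ≤ ‖w‖⁻¹ := by positivity
  nlinarith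

/-- the Cauchy transform -/
noncomputable def S (g : ℂ → ℂ) : ℂ → ℂ := ker ⋆[ContinuousLinearMap.mul ℝ ℂ, volume] g

lemma S_apply (g : ℂ → ℂ) (z : ℂ) : S g z = ∫ t, ker t * g (z - t) := rfl

lemma S_apply' (g : ℂ → ℂ) (z : ℂ) : S g z = ∫ t, ker (z - t) * g t := by
  rw [S_apply, ← integral_sub_left_eq_self (fun t => ker t * g (z - t)) volume z]
  simp

lemma S_contDiff {g : ℂ → ℂ} (hg : ContDiff ℝ ∞ g) (hc : HasCompactSupport g) :
    ContDiff ℝ ∞ (S g) :=
  hc.contDiff_convolution_right _ ker_locInt hg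

lemma S_fderiv {g : ℂ → ℂ} (hg : ContDiff ℝ ∞ g) (hc : HasCompactSupport g) (z w : ℂ) :
    fderiv ℝ (S g) z w = S (fun x => fderiv ℝ g x w) z := by
  have h1 := hc.hasFDerivAt_convolution_right (ContinuousLinearMap.mul ℝ ℂ) ker_locInt
    (hg.of_le (by simp)) z
  unfold S
  rw [h1.fderiv, convolution_precompR_apply (ContinuousLinearMap.mul ℝ ℂ) ker_locInt
    (hc.fderiv ℝ) (hg.continuous_fderiv (by simp))]

lemma S_int {g : ℂ → ℂ} (hg : Continuous g) (hc : HasCompactSupport g) (z : ℂ) :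
    Integrable fun t => ker t * g (z - t) :=
  hc.convolutionExists_right (ContinuousLinearMap.mul ℝ ℂ) ker_locInt hg z

lemma S_db {g : ℂ → ℂ} (hg : ContDiff ℝ ∞ g) (hc : HasCompactSupport g) (z : ℂ) :
    db (S g) z = g z := by
  have hD : Continuous (fderiv ℝ g) := hg.continuous_fderiv (by simp)
  have hcn : ∀ w, Continuous fun z => fderiv ℝ g z w := fun w => hD.clm_apply continuous_const
  have hs : ∀ w, HasCompactSupport fun z => fderiv ℝ g z w := fun w => hc.fderiv_apply ℝ w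
  have h1 : db (S g) z = ∫ t, ker t * db g (z - t) := by
    unfold db
    rw [S_fderiv hg hc, S_fderiv hg hc, S_apply, S_apply, ← integral_const_mul,
      ← integral_add (S_int (hcn _) (hs _) z) ((S_int (hcn _) (hs _) z).const_mul _),
      ← integral_const_mul]
    refine integral_congr_ae (ae_of_all _ fun t => ?_)
    show (1 / 2 : ℂ) * (ker t * _ + Complex.I * (ker t * _)) = ker t * ((1 / 2) * (_ + Complex.I * _))
    ring
  have h2 := Pool.Agent.Helper523.LL.pompeiu (hg.of_le (by simp)) hc z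
  have h3 : ∫ t, ker t * db g (z - t) = ∫ t, ker (z - t) * db g t := by
    rw [← integral_sub_left_eq_self (fun t => ker t * db g (z - t)) volume z]
    simp
  have h4 : ∀ t, ker (z - t) * db g t =
      (-(Real.pi : ℂ)⁻¹) * (Pool.Agent.Helper523.LL.dbar g t * (t - z)⁻¹) := by
    intro t
    unfold ker
    have h5 : db g t = Pool.Agent.Helper523.LL.dbar g t := rfl
    rw [h5, mul_inv, ← neg_sub t z, inv_neg]
    ring
  have hp : (Real.pi : ℂ) ≠ 0 := by exact_mod_cast Real.pi_ne_zero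
  rw [h1, h3]
  simp_rw [h4]
  rw [integral_const_mul, h2]
  field_simp

/-- sup bound for the Cauchy transform on a fixed ball -/
lemma S_bound (R : ℝ) : ∃ K : ℝ, 0 < K ∧ ∀ (g : ℂ → ℂ) (M : ℝ), 0 ≤ M → (∀ z, ‖g z‖ ≤ M) →
    (∀ z, R ≤ ‖z‖ → g z = 0) → ∀ z, ‖S g z‖ ≤ K * M := by
  have hK : CR R < ⊤ := CR_lt_top R
  refine ⟨(CR R).toReal + 1, by positivity, fun g M hM hg hs z => ?_⟩
  have h1 : ‖S g z‖ₑ ≤ CR R * ENNReal.ofReal M := by
    rw [S_apply']
    calc ‖∫ t, ker (z - t) * g t‖ₑ ≤ ∫⁻ t, ‖ker (z - t) * g t‖ₑ := enorm_integral_le_lintegral_enorm _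
      _ ≤ ∫⁻ t, (Metric.ball (0 : ℂ) R).indicator (fun t => ‖t - z‖ₑ⁻¹ * ENNReal.ofReal M) t := by
          refine lintegral_mono_ae ?_
          filter_upwards [Measure.ae_ne volume z] with t ht
          by_cases h : t ∈ Metric.ball (0 : ℂ) R
          · rw [indicator_of_mem h, enorm_mul]
            refine mul_le_mul' ?_ ?_
            · have h5 := ker_enorm (w := z - t) (sub_ne_zero.2 (Ne.symm ht))
              have h6 : ‖z - t‖ₑ = ‖t - z‖ₑ := by rw [← neg_sub t z, enorm_neg]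
              rwa [h6] at h5
            · rw [← ofReal_norm]
              exact ENNReal.ofReal_le_ofReal (hg t)
          · rw [indicator_of_notMem h]
            rw [mem_ball_zero_iff, not_lt] at h
            simp [hs t h]
      _ = ∫⁻ t in Metric.ball (0 : ℂ) R, ‖t - z‖ₑ⁻¹ * ENNReal.ofReal M :=
          lintegral_indicator Metric.isOpen_ball.measurableSet _
      _ = (∫⁻ t in Metric.ball (0 : ℂ) R, ‖t - z‖ₑ⁻¹) * ENNReal.ofReal M :=
          lintegral_mul_const _ (by fun_prop)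
      _ ≤ CR R * ENNReal.ofReal M := mul_le_mul_left (cauchy_loc R z) _
  have h2 : ‖S g z‖ ≤ (CR R).toReal * M := by
    have h3 : ENNReal.ofReal ‖S g z‖ ≤ ENNReal.ofReal ((CR R).toReal * M) := by
      rw [ofReal_norm, ENNReal.ofReal_mul ENNReal.toReal_nonneg, ENNReal.ofReal_toReal hK.ne]
      exact h1
    exact (ENNReal.ofReal_le_ofReal_iff (by positivity)).1 h3
  nlinarith

end Pool.Agent.X100.QL
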