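import Mathlib

set_option autoImplicit false

open MeasureTheory Set Filter Topology
open scoped ContDiff

namespace Pool.Agent.X100.QL

lemma prim {b : ℝ → ℝ} (hb : ContDiff ℝ ∞ b) (hp : Function.Periodic b 1) :
    ∃ P : ℝ → ℝ, ContDiff ℝ ∞ P ∧ Function.Periodic P 1 ∧
      ∀ x, HasDerivAt P (b x - ∫ t in (0 : ℝ)..1, b t) x := by
  set m := ∫ t in (0 : ℝ)..1, b t with hm
  have hbc : Continuous fun t => b t - m := hb.continuous.sub continuous_const
  have hd : ∀ x, HasDerivAt (fun x => ∫ t in (0 : ℝ)..x, (b t - m)) (b x - m) x := fun x =>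
    (hbc.integral_hasStrictDerivAt 0 x).hasDerivAt
  refine ⟨fun x => ∫ t in (0 : ℝ)..x, (b t - m), ?_, ?_, hd⟩
  · rw [contDiff_infty_iff_deriv]
    refine ⟨fun x => (hd x).differentiableAt, ?_⟩
    have : deriv (fun x => ∫ t in (0 : ℝ)..x, (b t - m)) = fun x => b x - m :=
      funext fun x => (hd x).deriv
    rw [this]
    exact hb.sub contDiff_const
  · intro x
    have hp' : Function.Periodic (fun t => b t - m) 1 := fun t => by
      show b (t + 1) - m = b t - m
      rw [hp t]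
    have h1 : ∫ t in x..x + 1, (b t - m) = 0 := by
      rw [hp'.intervalIntegral_add_eq x 0, zero_add,
        intervalIntegral.integral_sub (hb.continuous.intervalIntegrable _ _)
          (continuous_const.intervalIntegrable _ _)]
      simp [hm]
    have h2 := intervalIntegral.integral_add_adjacent_intervals
      (hbc.intervalIntegrable (μ := volume) 0 x) (hbc.intervalIntegrable (μ := volume) x (x + 1))
    show ∫ t in (0 : ℝ)..x + 1, (b t - m) = ∫ t in (0 : ℝ)..x, (b t - m)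
    rw [← h2, h1, add_zero]

lemma per_bdd {P : ℝ → ℝ} (hP : Continuous P) (hp : Function.Periodic P 1) :
    ∃ C : ℝ, ∀ x, |P x| ≤ C := by
  obtain ⟨C, hC⟩ := (isCompact_Icc (a := (0 : ℝ)) (b := 1)).exists_bound_of_continuousOn
    hP.continuousOn
  refine ⟨C, fun x => ?_⟩
  obtain ⟨y, hy, hxy⟩ := hp.exists_mem_Ico₀ one_pos x
  rw [hxy]
  exact hC y ⟨hy.1, hy.2.le⟩

lemma exists_alpha {ε : ℝ} (hε : 0 < ε) : ∃ α : ℝ → ℝ, ContDiff ℝ ∞ α ∧ Function.Periodic α 1 ∧
    (∀ x, 0 ≤ α x) ∧ (∀ x, α x ≤ 1) ∧ (∀ n : ℤ, ∀ᶠ x in 𝓝 (n : ℝ), α x = 1) ∧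
    0 ≤ (∫ t in (0 : ℝ)..1, α t) ∧ (∫ t in (0 : ℝ)..1, α t) ≤ ε := by
  set a : ℕ → ℝ → ℝ := fun k x => Real.smoothTransition (2 * (Real.cos (Real.pi * x)) ^ (2 * (k + 1)))
    with ha
  have hsm : ∀ k, ContDiff ℝ ∞ (a k) := fun k =>
    Real.smoothTransition.contDiff.comp (by fun_prop)
  have hlim : Tendsto (fun k => ∫ t in Ioo (0 : ℝ) 1, a k t) atTop (𝓝 (∫ t in Ioo (0 : ℝ) 1, (0 : ℝ))) := by
    refine tendsto_integral_of_dominated_convergence (fun _ => (1 : ℝ)) ?_ ?_ ?_ ?_
    · exact fun k => (hsm k).continuous.aestronglyMeasurable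
    · simp
    · intro k
      refine ae_of_all _ fun x => ?_
      rw [Real.norm_of_nonneg (Real.smoothTransition.nonneg _)]
      exact Real.smoothTransition.le_one _
    · refine (ae_restrict_iff' measurableSet_Ioo).2 (ae_of_all _ fun x hx => ?_)
      have h1 : (Real.cos (Real.pi * x)) ^ 2 < 1 := by
        have h2 : 0 < Real.sin (Real.pi * x) :=
          Real.sin_pos_of_pos_of_lt_pi (by have := Real.pi_pos; have := hx.1; positivity)
            (by have := Real.pi_pos; have := hx.2; nlinarith)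
        nlinarith [Real.sin_sq_add_cos_sq (Real.pi * x), pow_pos h2 2]
      have h3 : Tendsto (fun k : ℕ => 2 * (Real.cos (Real.pi * x)) ^ (2 * (k + 1))) atTop (𝓝 0) := by
        have h4 : Tendsto (fun k : ℕ => ((Real.cos (Real.pi * x)) ^ 2) ^ (k + 1)) atTop (𝓝 0) :=
          (tendsto_add_atTop_iff_nat (f := fun k : ℕ => ((Real.cos (Real.pi * x)) ^ 2) ^ k) 1).2
            (tendsto_pow_atTop_nhds_zero_of_lt_one (sq_nonneg _) h1)
        have h5 := h4.const_mul 2
        rw [mul_zero] at h5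
        refine h5.congr fun k => ?_
        rw [← pow_mul]
      have h6 := (Real.smoothTransition.continuous.tendsto 0).comp h3
      rw [Real.smoothTransition.zero] at h6
      exact h6
  rw [integral_zero] at hlim
  obtain ⟨k, hk⟩ := (hlim.eventually (gt_mem_nhds hε)).exists
  refine ⟨a k, hsm k, ?_, fun x => Real.smoothTransition.nonneg _, fun x => Real.smoothTransition.le_one _, ?_, ?_, ?_⟩
  · intro x
    simp only [ha]
    have : Real.pi * (x + 1) = Real.pi * x + Real.pi := by ring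
    rw [this, Real.cos_add_pi, neg_pow, Even.neg_one_pow (by simp), one_mul]
  · intro n
    have h1 : Continuous fun x : ℝ => 2 * (Real.cos (Real.pi * x)) ^ (2 * (k + 1)) := by fun_prop
    have h2 : (1 : ℝ) < 2 * (Real.cos (Real.pi * (n : ℝ))) ^ (2 * (k + 1)) := by
      have h3 : Real.cos (Real.pi * n) ^ 2 = 1 := by
        have h4 : Real.sin (Real.pi * n) = 0 := by
          rw [mul_comm]; exact Real.sin_int_mul_pi n
        have := Real.sin_sq_add_cos_sq (Real.pi * n)
        rw [h4] at this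
        linarith
      rw [pow_mul, h3, one_pow]
      norm_num
    filter_upwards [h1.continuousAt.eventually (lt_mem_nhds h2)] with x hx
    exact Real.smoothTransition.one_of_one_le hx.le
  · exact intervalIntegral.integral_nonneg zero_le_one fun x _ => Real.smoothTransition.nonneg _
  · rw [intervalIntegral.integral_of_le zero_le_one, integral_Ioc_eq_integral_Ioo]
    exact hk.le

/-- a smooth periodic gap profile with its two successive bounded primitives -/
lemma exists_profile {ε : ℝ} (hε : 0 < ε) : ∃ (α B A : ℝ → ℝ) (m C : ℝ),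
    ContDiff ℝ ∞ α ∧ ContDiff ℝ ∞ B ∧ ContDiff ℝ ∞ A ∧
    (∀ x, 0 ≤ α x) ∧ (∀ x, α x ≤ 1) ∧ (∀ n : ℤ, ∀ᶠ x in 𝓝 (n : ℝ), α x = 1) ∧
    0 ≤ m ∧ m ≤ ε ∧ (∀ x, HasDerivAt B (α x - m) x) ∧ (∀ x, HasDerivAt A (B x) x) ∧
    0 < C ∧ (∀ x, |B x| ≤ C) ∧ (∀ x, |A x| ≤ C) := by
  obtain ⟨α, h1, h2, h3, h4, h5, h6, h7⟩ := exists_alpha hε
  obtain ⟨P, hP1, hP2, hP3⟩ := prim h1 h2
  obtain ⟨A, hA1, hA2, hA3⟩ := prim hP1 hP2
  set m' := ∫ t in (0 : ℝ)..1, P t
  obtain ⟨C1, hC1⟩ := per_bdd (hP1.continuous.sub (continuous_const (y := m'))) (fun x => by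
    show P (x + 1) - m' = P x - m'
    rw [hP2 x])
  obtain ⟨C2, hC2⟩ := per_bdd hA1.continuous hA2
  refine ⟨α, fun x => P x - m', A, ∫ t in (0 : ℝ)..1, α t, |C1| + |C2| + 1, h1,
    hP1.sub contDiff_const, hA1, h3, h4, h5, h6, h7, fun x => ?_, hA3, by positivity,
    fun x => ?_, fun x => ?_⟩
  · exact (hP3 x).sub_const _
  · have h9 := le_abs_self C1
    have h10 : |P x - m'| ≤ C1 := hC1 x
    show |P x - m'| ≤ _
    linarith [abs_nonneg C2]
  · have := hC2 x; have := le_abs_self C2; have := abs_nonneg C1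
    linarith

end Pool.Agent.X100.QL
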