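import Mathlib
import Pool.Agent.X100.QL.Op
import Pool.Agent.X100.QL.Per

set_option autoImplicit false

open MeasureTheory Set Filter Topology
open scoped ENNReal Convolution ContDiff

namespace Pool.Agent.X100.QL

open Pool.Agent.X100.SUC (db db_mul)

/-- the coordinate in direction `e` -/
noncomputable def ell (e : ℂ) : ℂ →L[ℝ] ℝ :=
  Complex.reCLM.comp ((ContinuousLinearMap.mul ℝ ℂ) ((starRingEnd ℂ) e))

lemma ell_apply (e z : ℂ) : ell e z = ((starRingEnd ℂ) e * z).re := rfl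

lemma ell_le {e : ℂ} (he : ‖e‖ = 1) (z : ℂ) : |ell e z| ≤ ‖z‖ := by
  rw [ell_apply]
  refine (Complex.abs_re_le_norm _).trans ?_
  rw [norm_mul, RCLike.norm_conj, he, one_mul]

/-- complexification of `ell e` -/
noncomputable def elc (e : ℂ) : ℂ →L[ℝ] ℂ := Complex.ofRealCLM.comp (ell e)

lemma elc_apply (e z : ℂ) : elc e z = (ell e z : ℂ) := rfl

lemma elc_norm {e : ℂ} (he : ‖e‖ = 1) : ‖elc e‖ ≤ 1 := by
  refine ContinuousLinearMap.opNorm_le_bound _ zero_le_one fun z => ?_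
  rw [elc_apply, Complex.norm_real, one_mul]
  exact ell_le he z

lemma elc_db (e : ℂ) : (1 / 2 : ℂ) * (elc e 1 + Complex.I * elc e Complex.I) = e / 2 := by
  rw [elc_apply, elc_apply, ell_apply, ell_apply]
  apply Complex.ext <;> simp <;> ring

/-- product of a smooth function with a rescaled function of one coordinate -/
noncomputable def pr (F : ℂ → ℂ) (Q : ℝ → ℝ) (e : ℂ) (δ : ℝ) (z : ℂ) : ℂ :=
  F z * (Q (ell e z / δ) : ℂ)

variable {F : ℂ → ℂ} {Q Q' : ℝ → ℝ} {e : ℂ} {δ : ℝ}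

lemma pr_hasFDerivAt (hF : ContDiff ℝ ∞ F) (hQ : ∀ x, HasDerivAt Q (Q' x) x) (z : ℂ) :
    HasFDerivAt (pr F Q e δ)
      (F z • (((Q' (ell e z / δ) / δ : ℝ)) • elc e) +
        (Q (ell e z / δ) : ℂ) • fderiv ℝ F z) z := by
  have h1 : HasFDerivAt F (fderiv ℝ F z) z := (hF.differentiable (by simp) z).hasFDerivAt
  have h2 : HasFDerivAt (fun z => ell e z / δ) ((δ⁻¹ : ℝ) • ell e) z := by
    have h3 := (ell e).hasFDerivAt (x := z)
    have h4 := h3.const_smul (δ⁻¹ : ℝ)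
    refine h4.congr_of_eventuallyEq (Eventually.of_forall fun w => ?_)
    show ell e w / δ = δ⁻¹ • ell e w
    rw [smul_eq_mul, div_eq_inv_mul]
  have h5 : HasFDerivAt (fun z => Q (ell e z / δ))
      (Q' (ell e z / δ) • ((δ⁻¹ : ℝ) • ell e)) z := (hQ _).comp_hasFDerivAt z h2
  have h6 : HasFDerivAt (fun z => ((Q (ell e z / δ) : ℝ) : ℂ))
      (Complex.ofRealCLM.comp (Q' (ell e z / δ) • ((δ⁻¹ : ℝ) • ell e))) z :=
    Complex.ofRealCLM.hasFDerivAt.comp z h5
  have h7 := h1.mul h6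
  refine h7.congr_fderiv ?_
  ext v
  simp [elc_apply, div_eq_mul_inv]
  left
  ring

lemma pr_contDiff (hF : ContDiff ℝ ∞ F) (hQ : ContDiff ℝ ∞ Q) : ContDiff ℝ ∞ (pr F Q e δ) := by
  unfold pr
  refine hF.mul (Complex.ofRealCLM.contDiff.comp (hQ.comp ?_))
  exact (ell e).contDiff.div_const δ

lemma pr_tsupport : tsupport (pr F Q e δ) ⊆ tsupport F :=
  closure_mono fun z hz => by
    intro h
    exact hz (by simp [pr, h])

lemma pr_compact (hc : HasCompactSupport F) : HasCompactSupport (pr F Q e δ) :=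
  hc.mul_right

lemma pr_db (hF : ContDiff ℝ ∞ F) (hQ : ∀ x, HasDerivAt Q (Q' x) x) (z : ℂ) :
    db (pr F Q e δ) z = F z * (e * (Q' (ell e z / δ) : ℂ) / (2 * δ)) +
      db F z * (Q (ell e z / δ) : ℂ) := by
  have h0 := elc_db e
  unfold db
  rw [(pr_hasFDerivAt hF hQ z).fderiv]
  simp only [add_apply, smul_apply, smul_eq_mul, Complex.real_smul]
  have h1 : elc e 1 = e - Complex.I * elc e Complex.I := by linear_combination 2 * h0
  rw [h1]
  push_cast
  ring

lemma pr_fderiv_norm (he : ‖e‖ = 1) (hδ : 0 < δ) (hF : ContDiff ℝ ∞ F)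
    (hQ : ∀ x, HasDerivAt Q (Q' x) x) (z : ℂ) :
    ‖fderiv ℝ (pr F Q e δ) z‖ ≤ ‖F z‖ * |Q' (ell e z / δ)| / δ +
      |Q (ell e z / δ)| * ‖fderiv ℝ F z‖ := by
  rw [(pr_hasFDerivAt hF hQ z).fderiv]
  refine (norm_add_le _ _).trans (add_le_add ?_ ?_)
  · rw [norm_smul, norm_smul, Real.norm_eq_abs, abs_div, abs_of_pos hδ]
    have := elc_norm he
    calc ‖F z‖ * (|Q' (ell e z / δ)| / δ * ‖elc e‖) ≤ ‖F z‖ * (|Q' (ell e z / δ)| / δ * 1) := by
          gcongr
      _ = _ := by ring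
  · rw [norm_smul, Complex.norm_real, Real.norm_eq_abs]

lemma cs_bdd (hF : ContDiff ℝ ∞ F) (hc : HasCompactSupport F) :
    ∃ C : ℝ, 0 ≤ C ∧ (∀ z, ‖F z‖ ≤ C) ∧ (∀ z, ‖fderiv ℝ F z‖ ≤ C) := by
  obtain ⟨C1, h1⟩ := hF.continuous.bounded_above_of_compact_support hc
  obtain ⟨C2, h2⟩ := (hF.continuous_fderiv (by simp)).bounded_above_of_compact_support (hc.fderiv ℝ)
  refine ⟨|C1| + |C2|, by positivity, fun z => ?_, fun z => ?_⟩
  · have := h1 z; have := le_abs_self C1; have := abs_nonneg C2; linarith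
  · have := h2 z; have := le_abs_self C2; have := abs_nonneg C1; linarith

lemma db_contDiff (hF : ContDiff ℝ ∞ F) : ContDiff ℝ ∞ (db F) := by
  have h1 : ContDiff ℝ ∞ (fderiv ℝ F) := hF.fderiv_right (by simp)
  unfold db
  exact contDiff_const.mul ((h1.clm_apply contDiff_const).add
    (contDiff_const.mul (h1.clm_apply contDiff_const)))

lemma db_tsupport : tsupport (db F) ⊆ tsupport F := by
  refine closure_minimal ?_ (isClosed_tsupport _)
  intro z hz
  by_contra h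
  exact hz (Pool.Agent.X100.SUC.db_zero h)

lemma db_compact (hc : HasCompactSupport F) : HasCompactSupport (db F) :=
  hc.of_isClosed_subset (isClosed_tsupport _) db_tsupport

/-- one homogenisation step -/
lemma step {φ h : ℂ → ℂ} (hφ : ContDiff ℝ ∞ φ) (hc : HasCompactSupport φ) (hh : ContDiff ℝ ∞ h)
    (hdb : ∀ z, db h z = φ z) {N : ℝ} (hN : ∀ z, ‖fderiv ℝ h z‖ + 2 * ‖φ z‖ ≤ N)
    {ε η : ℝ} (hε : 0 < ε) (hε1 : ε ≤ 1) (hη : 0 < η) {e : ℂ} (he : ‖e‖ = 1) :
    ∃ (φ' h' : ℂ → ℂ) (δ m : ℝ), 0 < δ ∧ δ < η ∧ 0 ≤ m ∧ m ≤ ε ∧ ContDiff ℝ ∞ φ' ∧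
      HasCompactSupport φ' ∧ tsupport φ' ⊆ tsupport φ ∧ ContDiff ℝ ∞ h' ∧
      (∀ z, db h' z = φ' z) ∧ (∀ z ∈ tsupport φ', ∀ n : ℤ, ell e z ≠ n * δ) ∧
      (∀ z, ‖fderiv ℝ h' z‖ + 2 * ‖φ' z‖ ≤ (1 + ε) * N + η) ∧
      (∀ z, ‖h' z - (1 - m : ℝ) * h z‖ ≤ η) := by
  obtain ⟨α, B, A, m, C0, hα, hB, hA, hα0, hα1, hαn, hm0, hm1, hB', hA', hC0, hBC, hAC⟩ :=
    exists_profile hε
  obtain ⟨M1, hM10, hM1, hM1'⟩ := cs_bdd hφ hc
  obtain ⟨M2, hM20, hM2, hM2'⟩ := cs_bdd (db_contDiff hφ) (db_compact hc)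
  obtain ⟨M3, hM30, hM3, hM3'⟩ := cs_bdd (db_contDiff (db_contDiff hφ)) (db_compact (db_compact hc))
  obtain ⟨R, hR⟩ : ∃ R : ℝ, ∀ z, R ≤ ‖z‖ → z ∉ tsupport φ := by
    obtain ⟨R, -, h1⟩ := hc.isCompact.isBounded.exists_pos_norm_lt
    exact ⟨R, fun z hz hz' => absurd (h1 z hz') (not_lt.2 hz)⟩
  obtain ⟨K, hK0, hK⟩ := S_bound R
  set M := M1 + M2 + M3 with hM
  have hM0 : 0 ≤ M := by positivity
  set C := (20 + 20 * K) * M * C0 with hC
  have hCn : 0 ≤ C := by positivity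
  obtain ⟨δ, hδ0, hδ1, hδη, hδC⟩ : ∃ δ : ℝ, 0 < δ ∧ δ ≤ 1 ∧ δ < η ∧ C * δ ≤ η := by
    refine ⟨min 1 (η / (C + 2)), by positivity, min_le_left _ _, ?_, ?_⟩
    · refine lt_of_le_of_lt (min_le_right _ _) ?_
      rw [div_lt_iff₀ (by positivity)]
      nlinarith
    · calc C * min 1 (η / (C + 2)) ≤ (C + 2) * (η / (C + 2)) := by
            gcongr
            · linarith
            · exact min_le_right _ _
        _ = η := by field_simp
  set eb := (starRingEnd ℂ) e with heb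
  have hee : eb * e = 1 := by
    rw [heb, mul_comm, Complex.mul_conj, Complex.normSq_eq_norm_sq, he]; simp
  have hebn : ‖eb‖ = 1 := by rw [heb, RCLike.norm_conj, he]
  set G := pr (db (db φ)) A e δ with hG
  have hGs : ContDiff ℝ ∞ G := pr_contDiff (db_contDiff (db_contDiff hφ)) hA
  have hGc : HasCompactSupport G := pr_compact (db_compact (db_compact hc))
  set T1 := pr φ B e δ with hT1
  set T2 := pr (db φ) A e δ with hT2
  have hT1s : ContDiff ℝ ∞ T1 := pr_contDiff hφ hB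
  have hT2s : ContDiff ℝ ∞ T2 := pr_contDiff (db_contDiff hφ) hA
  have hSs : ContDiff ℝ ∞ (S G) := S_contDiff hGs hGc
  set c1 : ℂ := 2 * δ * eb with hc1
  set c2 : ℂ := 4 * δ ^ 2 * eb ^ 2 with hc2
  have hc1n : ‖c1‖ = 2 * δ := by
    rw [hc1, norm_mul, norm_mul, hebn, Complex.norm_real, Real.norm_of_nonneg hδ0.le]; simp
  have hc2n : ‖c2‖ = 4 * δ ^ 2 := by
    rw [hc2, norm_mul, norm_mul, norm_pow, norm_pow, hebn, Complex.norm_real,
      Real.norm_of_nonneg hδ0.le]; simp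
  set mc : ℂ := ((1 - m : ℝ) : ℂ) with hmc
  have hm1' : m ≤ 1 := hm1.trans hε1
  have hmcn : ‖mc‖ = 1 - m := by
    rw [hmc, Complex.norm_real, Real.norm_of_nonneg (by linarith)]
  set h' : ℂ → ℂ := fun z => mc * h z - c1 * T1 z + c2 * T2 z - c2 * S G z with hh'
  have hd : ∀ z, HasFDerivAt h' (mc • fderiv ℝ h z - c1 • fderiv ℝ T1 z + c2 • fderiv ℝ T2 z -
      c2 • fderiv ℝ (S G) z) z := by
    intro z
    have d1 := ((hh.differentiable (by simp)) z).hasFDerivAt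
    have d2 := ((hT1s.differentiable (by simp)) z).hasFDerivAt
    have d3 := ((hT2s.differentiable (by simp)) z).hasFDerivAt
    have d4 := ((hSs.differentiable (by simp)) z).hasFDerivAt
    exact (((d1.const_smul mc).sub (d2.const_smul c1)).add (d3.const_smul c2)).sub
      (d4.const_smul c2)
  have hdT1 : ∀ z, db T1 z = φ z * (e * ((α (ell e z / δ) - m : ℝ) : ℂ) / (2 * δ)) +
      db φ z * (B (ell e z / δ) : ℂ) := fun z => pr_db hφ hB' z
  have hdT2 : ∀ z, db T2 z = db φ z * (e * ((B (ell e z / δ) : ℝ) : ℂ) / (2 * δ)) +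
      db (db φ) z * (A (ell e z / δ) : ℂ) := fun z => pr_db (db_contDiff hφ) hA' z
  have hdS : ∀ z, db (S G) z = db (db φ) z * (A (ell e z / δ) : ℂ) := fun z => S_db hGs hGc z
  have hdb' : ∀ z, db h' z = pr φ (fun x => 1 - α x) e δ z := by
    intro z
    have e1 : db h' z = mc * db h z - c1 * db T1 z + c2 * db T2 z - c2 * db (S G) z := by
      unfold db
      rw [(hd z).fderiv]
      simp only [add_apply, sub_apply, smul_apply, smul_eq_mul]
      ring
    rw [e1, hdT1, hdT2, hdS, hdb]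
    unfold pr
    have hδc : (δ : ℂ) ≠ 0 := by exact_mod_cast hδ0.ne'
    rw [hmc, hc1, hc2]
    push_cast
    field_simp
    linear_combination 2 * (-(φ z) * ((α (ell e z / δ) : ℂ) - (m : ℂ)) * 1 +
      2 * δ * eb * db φ z * (B (ell e z / δ) : ℂ)) * hee
  refine ⟨pr φ (fun x => 1 - α x) e δ, h', δ, m, hδ0, hδη, hm0, hm1,
    pr_contDiff hφ (contDiff_const.sub hα), pr_compact hc, pr_tsupport, ?_, hdb', ?_, ?_, ?_⟩
  · exact (((contDiff_const.mul hh).sub (contDiff_const.mul hT1s)).add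
      (contDiff_const.mul hT2s)).sub (contDiff_const.mul hSs)
  · intro z hz n hn
    have h1 : ∀ᶠ w in 𝓝 z, α (ell e w / δ) = 1 := by
      have h2 : Continuous fun w => ell e w / δ := by fun_prop
      have h3 : ell e z / δ = n := by rw [hn]; field_simp
      have h4 := h2.tendsto z
      simp only [h3] at h4
      exact h4.eventually (hαn n)
    have h5 : z ∉ tsupport (pr φ (fun x => 1 - α x) e δ) := by
      rw [notMem_tsupport_iff_eventuallyEq]
      filter_upwards [h1] with w hw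
      simp [pr, hw]
    exact h5 hz
  · intro z
    have b1 : ‖fderiv ℝ T1 z‖ ≤ ‖φ z‖ * (α (ell e z / δ) + m) / δ + C0 * M := by
      refine (pr_fderiv_norm he hδ0 hφ hB' z).trans (add_le_add ?_ ?_)
      · gcongr
        rw [abs_le]
        constructor <;> linarith [hα0 (ell e z / δ)]
      · have := hM1' z; have := hBC (ell e z / δ)
        gcongr
        linarith
    have b2 : ‖fderiv ℝ T2 z‖ ≤ 2 * (M * C0) / δ := by
      have h1 := pr_fderiv_norm he hδ0 (db_contDiff hφ) hA' z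
      have h2 : ‖db φ z‖ * |B (ell e z / δ)| / δ ≤ M * C0 / δ := by
        have := hM2 z; have := hBC (ell e z / δ)
        gcongr
        linarith
      have h3 : |A (ell e z / δ)| * ‖fderiv ℝ (db φ) z‖ ≤ M * C0 / δ := by
        have := hM2' z; have := hAC (ell e z / δ)
        rw [le_div_iff₀ hδ0]
        calc |A (ell e z / δ)| * ‖fderiv ℝ (db φ) z‖ * δ ≤ C0 * M * 1 := by
              gcongr
              linarith
          _ = _ := by ring
      calc ‖fderiv ℝ T2 z‖ ≤ _ := h1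
        _ ≤ M * C0 / δ + M * C0 / δ := add_le_add h2 h3
        _ = _ := by ring
    have b3 : ∀ z, ‖fderiv ℝ G z‖ ≤ 2 * (M * C0) / δ := by
      intro z
      have h1 := pr_fderiv_norm he hδ0 (db_contDiff (db_contDiff hφ)) hA' z
      have h2 : ‖db (db φ) z‖ * |B (ell e z / δ)| / δ ≤ M * C0 / δ := by
        have := hM3 z; have := hBC (ell e z / δ)
        gcongr
        linarith
      have h3 : |A (ell e z / δ)| * ‖fderiv ℝ (db (db φ)) z‖ ≤ M * C0 / δ := by
        have := hM3' z; have := hAC (ell e z / δ)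
        rw [le_div_iff₀ hδ0]
        calc |A (ell e z / δ)| * ‖fderiv ℝ (db (db φ)) z‖ * δ ≤ C0 * M * 1 := by
              gcongr
              linarith
          _ = _ := by ring
      calc ‖fderiv ℝ G z‖ ≤ _ := h1
        _ ≤ M * C0 / δ + M * C0 / δ := add_le_add h2 h3
        _ = _ := by ring
    have hG0 : ∀ z, R ≤ ‖z‖ → z ∉ tsupport G := fun z hz h1 =>
      hR z hz (db_tsupport (db_tsupport (pr_tsupport h1)))
    have b4 : ‖fderiv ℝ (S G) z‖ ≤ K * (2 * (M * C0) / δ) := by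
      refine ContinuousLinearMap.opNorm_le_bound _ (by positivity) fun v => ?_
      rw [S_fderiv hGs hGc]
      have := hK (fun x => fderiv ℝ G x v) (2 * (M * C0) / δ * ‖v‖) (by positivity) (fun w => ?_)
        (fun w hw => ?_) z
      · linarith
      · exact ((fderiv ℝ G w).le_opNorm v).trans (by gcongr; exact b3 w)
      · rw [fderiv_of_notMem_tsupport ℝ (hG0 w hw)]; rfl
    rw [(hd z).fderiv]
    have b5 : ‖mc • fderiv ℝ h z - c1 • fderiv ℝ T1 z + c2 • fderiv ℝ T2 z -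
      c2 • fderiv ℝ (S G) z‖ ≤ (1 - m) * ‖fderiv ℝ h z‖ + 2 * δ * ‖fderiv ℝ T1 z‖ +
        4 * δ ^ 2 * ‖fderiv ℝ T2 z‖ + 4 * δ ^ 2 * ‖fderiv ℝ (S G) z‖ := by
      rw [← hmcn, ← hc1n, ← hc2n, ← norm_smul, ← norm_smul, ← norm_smul, ← norm_smul]
      refine (norm_sub_le _ _).trans (add_le_add ?_ le_rfl)
      refine (norm_add_le _ _).trans (add_le_add ?_ le_rfl)
      exact norm_sub_le _ _
    have b6 : ‖pr φ (fun x => 1 - α x) e δ z‖ = ‖φ z‖ * (1 - α (ell e z / δ)) := by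
      unfold pr
      rw [norm_mul, Complex.norm_real, Real.norm_of_nonneg (by linarith [hα1 (ell e z / δ)])]
    have b7 : 2 * δ * ‖fderiv ℝ T1 z‖ ≤ 2 * (‖φ z‖ * (α (ell e z / δ) + m)) + 2 * δ * (C0 * M) := by
      calc 2 * δ * ‖fderiv ℝ T1 z‖ ≤ 2 * δ * (‖φ z‖ * (α (ell e z / δ) + m) / δ + C0 * M) := by
            gcongr
        _ = _ := by field_simp
    have b8 : 4 * δ ^ 2 * ‖fderiv ℝ T2 z‖ ≤ 8 * δ * (M * C0) := by
      calc 4 * δ ^ 2 * ‖fderiv ℝ T2 z‖ ≤ 4 * δ ^ 2 * (2 * (M * C0) / δ) := by gcongr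
        _ = _ := by field_simp; ring
    have b9 : 4 * δ ^ 2 * ‖fderiv ℝ (S G) z‖ ≤ 8 * δ * (K * (M * C0)) := by
      calc 4 * δ ^ 2 * ‖fderiv ℝ (S G) z‖ ≤ 4 * δ ^ 2 * (K * (2 * (M * C0) / δ)) := by gcongr
        _ = _ := by field_simp; ring
    rw [b6]
    have b10 : C * δ = 20 * δ * (M * C0) + 20 * δ * (K * (M * C0)) := by rw [hC]; ring
    have b11 : 0 ≤ δ * (M * C0) := by positivity
    have b12 : 0 ≤ δ * (K * (M * C0)) := by positivity
    have hz := hN z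
    have b13 : 0 ≤ m * ‖fderiv ℝ h z‖ := by positivity
    have b14 : 0 ≤ (ε - m) * (‖fderiv ℝ h z‖ + 2 * ‖φ z‖) := by
      have : 0 ≤ ε - m := by linarith
      positivity
    have b15 : (1 + ε) * (‖fderiv ℝ h z‖ + 2 * ‖φ z‖) ≤ (1 + ε) * N := by gcongr
    nlinarith [b5, b7, b8, b9]
  · intro z
    have b1 : ‖T1 z‖ ≤ M * C0 := by
      rw [hT1]; unfold pr
      rw [norm_mul, Complex.norm_real, Real.norm_eq_abs]
      have := hM1 z; have := hBC (ell e z / δ)
      gcongr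
      linarith
    have b2 : ‖T2 z‖ ≤ M * C0 := by
      rw [hT2]; unfold pr
      rw [norm_mul, Complex.norm_real, Real.norm_eq_abs]
      have := hM2 z; have := hAC (ell e z / δ)
      gcongr
      linarith
    have b3 : ‖S G z‖ ≤ K * (M * C0) := by
      refine hK G (M * C0) (by positivity) (fun w => ?_) (fun w hw => ?_) z
      · rw [hG]; unfold pr
        rw [norm_mul, Complex.norm_real, Real.norm_eq_abs]
        have := hM3 w; have := hAC (ell e w / δ)
        gcongr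
        linarith
      · exact image_eq_zero_of_notMem_tsupport fun h1 =>
          hR w hw (db_tsupport (db_tsupport (pr_tsupport h1)))
    have e1 : h' z - mc * h z = -(c1 * T1 z) + c2 * T2 z - c2 * S G z := by
      simp only [hh']; ring
    have e2 : ((1 - m : ℝ) : ℂ) * h z = mc * h z := rfl
    rw [e2, e1]
    have b4 : ‖-(c1 * T1 z) + c2 * T2 z - c2 * S G z‖ ≤ 2 * δ * ‖T1 z‖ + 4 * δ ^ 2 * ‖T2 z‖ +
        4 * δ ^ 2 * ‖S G z‖ := by
      rw [← hc1n, ← hc2n, ← norm_mul, ← norm_mul, ← norm_mul, ← norm_neg (c1 * T1 z)]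
      refine (norm_sub_le _ _).trans (add_le_add ?_ le_rfl)
      exact norm_add_le _ _
    have hδ2 : δ ^ 2 ≤ δ := by nlinarith
    have b5 : 2 * δ * ‖T1 z‖ ≤ 2 * δ * (M * C0) := by gcongr
    have b6 : 4 * δ ^ 2 * ‖T2 z‖ ≤ 4 * δ * (M * C0) := by gcongr
    have b7 : 4 * δ ^ 2 * ‖S G z‖ ≤ 4 * δ * (K * (M * C0)) := by gcongr
    have b10 : C * δ = 20 * δ * (M * C0) + 20 * δ * (K * (M * C0)) := by rw [hC]; ring
    have b11 : 0 ≤ δ * (M * C0) := by positivity
    have b12 : 0 ≤ δ * (K * (M * C0)) := by positivity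
    nlinarith

end Pool.Agent.X100.QL
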