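import Mathlib
import Pool.Agent.X100.QL.Step

set_option autoImplicit false

open MeasureTheory Set Filter Topology
open scoped ENNReal Convolution ContDiff

namespace Pool.Agent.X100.QL

open Pool.Agent.X100.SUC (db db_mul)

/-- the state of the induction -/
structure St where
  φ : ℂ → ℂ
  h : ℂ → ℂ
  c : ℝ
  φs : ContDiff ℝ ∞ φ
  φc : HasCompactSupport φ
  hs : ContDiff ℝ ∞ h
  hdb : ∀ z, db h z = φ z

/-- the invariants at stage `k` -/
def Inv (h0 : ℂ → ℂ) (s : ℝ) (k : ℕ) (t : St) : Prop :=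
  (∀ z, ‖fderiv ℝ t.h z‖ + 2 * ‖t.φ z‖ ≤ 1 / 2 - (1 / 4) * (1 / 2) ^ k) ∧
  (∀ z, ‖t.h z - (t.c : ℂ) * h0 z‖ ≤ s / 8 * (1 - (1 / 2) ^ k)) ∧
  1 / 2 + (1 / 4) * (1 / 2) ^ k ≤ t.c ∧ t.c ≤ 1

/-- the direction used at stage `k` -/
noncomputable def dir (k : ℕ) : ℂ := if Even k then 1 else Complex.I

lemma dir_norm (k : ℕ) : ‖dir k‖ = 1 := by
  unfold dir; split_ifs <;> simp

/-- the relation between consecutive states -/
def Rel (k : ℕ) (t t' : St) : Prop :=
  tsupport t'.φ ⊆ tsupport t.φ ∧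
  (∃ δ : ℝ, 0 < δ ∧ δ < (1 / 2) ^ k ∧ ∀ z ∈ tsupport t'.φ, ∀ n : ℤ, ell (dir k) z ≠ n * δ) ∧
  (∀ z, ‖t'.h z - t.h z‖ ≤ (1 / 2) ^ k)

lemma next {h0 : ℂ → ℂ} {s : ℝ} (hs0 : 0 < s) (hs1 : s ≤ 1) (hh0 : ∀ z, ‖h0 z‖ ≤ s) (k : ℕ) (t : St)
    (ht : Inv h0 s k t) : ∃ t' : St, Inv h0 s (k + 1) t' ∧ Rel k t t' := by
  obtain ⟨i1, i2, i3, i4⟩ := ht
  set p : ℝ := (1 / 2) ^ k with hp
  have hp0 : 0 < p := by positivity
  have hp1 : p ≤ 1 := pow_le_one₀ (by norm_num) (by norm_num)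
  obtain ⟨φ', h', δ, m, e1, e2, e3, e4, e5, e6, e7, e8, e9, e10, e11, e12⟩ :=
    step t.φs t.φc t.hs t.hdb i1 (ε := p / 32) (η := s * p / 32) (by positivity) (by linarith)
      (by positivity) (dir_norm k)
  have hpk : (1 / 2 : ℝ) ^ (k + 1) = p / 2 := by rw [pow_succ, ← hp]; ring
  have hsp : s * p ≤ p := by nlinarith
  have hc0 : 0 < t.c := by linarith
  refine ⟨⟨φ', h', (1 - m) * t.c, e5, e6, e8, e9⟩, ⟨fun z => ?_, fun z => ?_, ?_, ?_⟩, e7,
    ⟨δ, e1, ?_, e10⟩, fun z => ?_⟩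
  · rw [hpk]
    refine (e11 z).trans ?_
    nlinarith
  · rw [hpk]
    have h1 : h' z - (((1 - m) * t.c : ℝ) : ℂ) * h0 z = (h' z - ((1 - m : ℝ) : ℂ) * t.h z) +
        ((1 - m : ℝ) : ℂ) * (t.h z - (t.c : ℂ) * h0 z) := by push_cast; ring
    show ‖h' z - (((1 - m) * t.c : ℝ) : ℂ) * h0 z‖ ≤ _
    rw [h1]
    refine (norm_add_le _ _).trans ?_
    rw [norm_mul, Complex.norm_real, Real.norm_of_nonneg (by linarith)]
    have h2 := e12 z
    have h3 : (1 - m) * ‖t.h z - (t.c : ℂ) * h0 z‖ ≤ 1 * (s / 8 * (1 - p)) := by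
      gcongr
      · linarith
      · exact i2 z
    nlinarith
  · rw [hpk]
    show _ ≤ (1 - m) * t.c
    nlinarith
  · show (1 - m) * t.c ≤ 1
    nlinarith
  · nlinarith
  · have h1 : h' z - t.h z = (h' z - ((1 - m : ℝ) : ℂ) * t.h z) - (m : ℂ) * t.h z := by
      push_cast; ring
    have h2 : ‖t.h z‖ ≤ 2 := by
      have h3 : t.h z = (t.h z - (t.c : ℂ) * h0 z) + (t.c : ℂ) * h0 z := by ring
      rw [h3]
      refine (norm_add_le _ _).trans ?_
      rw [norm_mul, Complex.norm_real, Real.norm_of_nonneg hc0.le]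
      have h4 : t.c * ‖h0 z‖ ≤ 1 * s := by
        gcongr
        exact hh0 z
      have h5 := i2 z
      have h6 : s / 8 * (1 - p) ≤ 1 / 8 := by nlinarith
      linarith
    show ‖h' z - t.h z‖ ≤ _
    rw [h1]
    refine (norm_sub_le _ _).trans ?_
    rw [norm_mul, Complex.norm_real, Real.norm_of_nonneg e3]
    have h7 : m * ‖t.h z‖ ≤ p / 32 * 2 := by gcongr
    have h8 := e12 z
    nlinarith

lemma seq_exists {h0 : ℂ → ℂ} {s : ℝ} (hs0 : 0 < s) (hs1 : s ≤ 1) (hh0 : ∀ z, ‖h0 z‖ ≤ s)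
    (t0 : St) (ht0 : Inv h0 s 0 t0) :
    ∃ t : ℕ → St, t 0 = t0 ∧ (∀ k, Inv h0 s k (t k)) ∧ ∀ k, Rel k (t k) (t (k + 1)) := by
  choose! f hf1 hf2 using fun k (t : St) (ht : Inv h0 s k t) => next hs0 hs1 hh0 k t ht
  set u : ℕ → St := fun n => Nat.rec t0 (fun k s => f k s) n with hu
  have hinv : ∀ k, Inv h0 s k (u k) := by
    intro k
    induction k with
    | zero => exact ht0
    | succ k ih => exact hf1 k (u k) ih
  exact ⟨u, rfl, hinv, fun k => hf2 k (u k) (hinv k)⟩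

lemma db_le (F : ℂ → ℂ) (z : ℂ) : ‖db F z‖ ≤ ‖fderiv ℝ F z‖ := by
  unfold db
  rw [norm_mul]
  have h1 : ‖fderiv ℝ F z 1‖ ≤ ‖fderiv ℝ F z‖ := by
    simpa using (fderiv ℝ F z).le_opNorm 1
  have h2 : ‖fderiv ℝ F z Complex.I‖ ≤ ‖fderiv ℝ F z‖ := by
    simpa using (fderiv ℝ F z).le_opNorm Complex.I
  have h3 : ‖fderiv ℝ F z 1 + Complex.I * fderiv ℝ F z Complex.I‖ ≤
      ‖fderiv ℝ F z‖ + ‖fderiv ℝ F z‖ := by
    refine (norm_add_le _ _).trans (add_le_add h1 ?_)
    rw [norm_mul, Complex.norm_I, one_mul]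
    exact h2
  have h4 : ‖(1 / 2 : ℂ)‖ = 1 / 2 := by simp
  rw [h4]
  linarith

/-- the initial state -/
lemma init : ∃ (h0 : ℂ → ℂ) (s : ℝ) (t0 : St), 0 < s ∧ s ≤ 1 ∧ (∀ z, ‖h0 z‖ ≤ s) ∧
    h0 0 = (s : ℂ) ∧ h0 3 = 0 ∧ Inv h0 s 0 t0 := by
  let χ : ContDiffBump (0 : ℂ) := ⟨1, 2, by norm_num, by norm_num⟩
  set F : ℂ → ℂ := fun z => (χ z : ℂ) with hF
  have hFs : ContDiff ℝ ∞ F := Complex.ofRealCLM.contDiff.comp χ.contDiff
  have hFc : HasCompactSupport F := by
    have : F = (fun x : ℝ => (x : ℂ)) ∘ χ := rfl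
    rw [this]
    exact χ.hasCompactSupport.comp_left (by simp)
  obtain ⟨C, hC0, hC1, hC2⟩ := cs_bdd hFs hFc
  set s : ℝ := 1 / (12 * (C + 1)) with hs
  have hs0 : 0 < s := by positivity
  have hsC : s * C ≤ 1 / 12 := by
    rw [hs, div_mul_eq_mul_div, one_mul, div_le_iff₀ (by positivity)]
    linarith
  have hs1 : s ≤ 1 := by
    rw [hs, div_le_iff₀ (by positivity)]
    linarith
  set h0 : ℂ → ℂ := fun z => (s : ℂ) * F z with hh0
  have hh0s : ContDiff ℝ ∞ h0 := contDiff_const.mul hFs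
  have hh0c : HasCompactSupport h0 := hFc.mul_left
  have hfd : ∀ z, ‖fderiv ℝ h0 z‖ ≤ 1 / 12 := by
    intro z
    have h1 : HasFDerivAt h0 ((s : ℂ) • fderiv ℝ F z) z :=
      ((hFs.differentiable (by simp)) z).hasFDerivAt.const_smul (s : ℂ)
    rw [h1.fderiv, norm_smul, Complex.norm_real, Real.norm_of_nonneg hs0.le]
    exact (mul_le_mul_of_nonneg_left (hC2 z) hs0.le).trans hsC
  refine ⟨h0, s, ⟨db h0, h0, 1, db_contDiff hh0s, db_compact hh0c, hh0s, fun _ => rfl⟩, hs0, hs1,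
    fun z => ?_, ?_, ?_, fun z => ?_, fun z => ?_, ?_, le_rfl⟩
  · rw [hh0]
    simp only [norm_mul, Complex.norm_real, hF]
    rw [Real.norm_of_nonneg hs0.le, Real.norm_of_nonneg χ.nonneg]
    have := χ.le_one (x := z)
    nlinarith
  · have h1 : χ (0 : ℂ) = 1 := χ.one_of_mem_closedBall (by simp [χ])
    simp [hh0, hF, h1]
  · have h1 : χ (3 : ℂ) = 0 := χ.zero_of_le_dist (by simp [χ]; norm_num)
    simp [hh0, hF, h1]
  · have h1 := db_le h0 z
    have h2 := hfd z
    show ‖fderiv ℝ h0 z‖ + 2 * ‖db h0 z‖ ≤ _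
    norm_num
    linarith
  · simp
  · norm_num

/-- A Lipschitz function, holomorphic off a compact set which misses the grid lines of arbitrarily
small mesh in both coordinate directions, and not entire. -/
theorem exists_h : ∃ (P : Set ℂ) (h : ℂ → ℂ), IsClosed P ∧
    (∀ k : ℕ, ∀ η : ℝ, 0 < η → ∃ δ : ℝ, 0 < δ ∧ δ < η ∧ ∀ z ∈ P, ∀ n : ℤ, ell (dir k) z ≠ n * δ) ∧
    LipschitzWith (1 / 2) h ∧ DifferentiableOn ℂ h Pᶜ ∧ ∃ z, ¬ AnalyticAt ℂ h z := by
  obtain ⟨h0, s, t0, hs0, hs1, hh0, ha, hb, hInv⟩ := init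
  obtain ⟨t, -, ht, hr⟩ := seq_exists hs0 hs1 hh0 t0 hInv
  have hgeo : ∀ z, ∀ k, dist ((t k).h z) ((t (k + 1)).h z) ≤ 1 * (1 / 2 : ℝ) ^ k := by
    intro z k
    rw [dist_comm, dist_eq_norm, one_mul]
    exact (hr k).2.2 z
  have hex : ∀ z, ∃ a, Tendsto (fun k => (t k).h z) atTop (𝓝 a) := fun z =>
    cauchySeq_tendsto_of_complete (cauchySeq_of_le_geometric (1 / 2) 1 (by norm_num) (hgeo z))
  choose h hh using hex
  have hrate : ∀ z k, dist ((t k).h z) (h z) ≤ 2 * (1 / 2 : ℝ) ^ k := by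
    intro z k
    have := dist_le_of_le_geometric_of_tendsto (1 / 2) 1 (by norm_num) (hgeo z) (hh z) k
    refine this.trans (le_of_eq ?_)
    ring
  have hunif : TendstoUniformly (fun k => (t k).h) h atTop := by
    rw [Metric.tendstoUniformly_iff]
    intro ε hε
    have h1 : Tendsto (fun k : ℕ => 2 * (1 / 2 : ℝ) ^ k) atTop (𝓝 0) := by
      have := (tendsto_pow_atTop_nhds_zero_of_lt_one (r := (1 / 2 : ℝ)) (by norm_num)
        (by norm_num)).const_mul 2
      simpa using this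
    filter_upwards [h1.eventually (gt_mem_nhds hε)] with k hk z
    rw [dist_comm]
    exact (hrate z k).trans_lt hk
  have hanti : Antitone fun k => tsupport (t k).φ := antitone_nat_of_succ_le fun k => (hr k).1
  refine ⟨⋂ k, tsupport (t k).φ, h, isClosed_iInter fun k => isClosed_tsupport _, ?_, ?_, ?_, ?_⟩
  · intro k η hη
    obtain ⟨j, hj⟩ := exists_pow_lt_of_lt_one hη (by norm_num : (1 / 2 : ℝ) < 1)
    -- a stage of the right parity beyond `j`
    set l := k + 2 * j with hl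
    have hdir : dir l = dir k := by
      unfold dir
      have : Even l ↔ Even k := by
        rw [hl, Nat.even_add]
        simp
      simp only [this]
    obtain ⟨δ, d1, d2, d3⟩ := (hr l).2.1
    refine ⟨δ, d1, ?_, fun z hz n => ?_⟩
    · refine d2.trans (lt_of_le_of_lt ?_ hj)
      exact pow_le_pow_of_le_one (by norm_num) (by norm_num) (by omega)
    · rw [← hdir]
      exact d3 z (mem_iInter.1 hz (l + 1)) n
  · refine LipschitzWith.of_dist_le_mul fun x y => ?_
    have h1 : ∀ k, dist ((t k).h x) ((t k).h y) ≤ ((1 / 2 : NNReal) : ℝ) * dist x y := by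
      intro k
      have h2 : LipschitzWith (1 / 2) (t k).h := by
        refine lipschitzWith_of_nnnorm_fderiv_le ((t k).hs.differentiable (by simp)) fun z => ?_
        rw [← NNReal.coe_le_coe, coe_nnnorm]
        have h3 := (ht k).1 z
        have h4 : (0 : ℝ) < (1 / 2) ^ k := by positivity
        have h5 := norm_nonneg ((t k).φ z)
        push_cast
        linarith
      exact h2.dist_le_mul x y
    exact le_of_tendsto ((hh x).dist (hh y)) (Eventually.of_forall h1)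
  · intro z hz
    rw [mem_compl_iff, mem_iInter, not_forall] at hz
    obtain ⟨k, hk⟩ := hz
    have hU : IsOpen (tsupport (t k).φ)ᶜ := (isClosed_tsupport _).isOpen_compl
    have h1 : TendstoLocallyUniformlyOn (fun k => (t k).h) h atTop (tsupport (t k).φ)ᶜ :=
      (hunif.tendstoUniformlyOn).tendstoLocallyUniformlyOn
    have h2 : ∀ᶠ m in atTop, DifferentiableOn ℂ (t m).h (tsupport (t k).φ)ᶜ := by
      filter_upwards [eventually_ge_atTop k] with m hm w hw
      have h3 : w ∉ tsupport (t m).φ := fun h4 => hw (hanti hm h4)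
      have h5 : (t m).φ w = 0 := image_eq_zero_of_notMem_tsupport h3
      have h6 := (t m).hdb w
      rw [h5] at h6
      unfold Pool.Agent.X100.SUC.db at h6
      refine DifferentiableAt.differentiableWithinAt ?_
      rw [differentiableAt_complex_iff_differentiableAt_real]
      refine ⟨((t m).hs.differentiable (by simp)) w, ?_⟩
      rw [smul_eq_mul]
      linear_combination (-2 * Complex.I) * h6 + fderiv ℝ (t m).h w Complex.I * Complex.I_sq
    exact ((h1.differentiableOn h2 hU).differentiableAt (hU.mem_nhds hk)).differentiableWithinAt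
  · by_contra hcon
    push Not at hcon
    have hdiff : Differentiable ℂ h := fun z => (hcon z).differentiableAt
    have hk8 : ∀ k z, ‖(t k).h z - ((t k).c : ℂ) * h0 z‖ ≤ s / 8 := by
      intro k z
      refine ((ht k).2.1 z).trans ?_
      have : (0 : ℝ) < (1 / 2) ^ k := by positivity
      nlinarith
    have hbd : ∀ z, ‖h z‖ ≤ 2 := by
      intro z
      refine le_of_tendsto (hh z).norm (Eventually.of_forall fun k => ?_)
      have e1 := hk8 k z
      have e2 : ‖((t k).c : ℂ) * h0 z‖ ≤ 1 := by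
        have e0 : (0 : ℝ) < (1 / 2) ^ k := by positivity
        have e3 := (ht k).2.2.1
        have e4 := (ht k).2.2.2
        rw [norm_mul, Complex.norm_real, Real.norm_of_nonneg (by linarith)]
        have := hh0 z
        have := norm_nonneg (h0 z)
        nlinarith
      have e3 : (t k).h z = ((t k).h z - ((t k).c : ℂ) * h0 z) + ((t k).c : ℂ) * h0 z := by ring
      rw [e3]
      refine (norm_add_le _ _).trans ?_
      linarith
    have hbdd : Bornology.IsBounded (range h) := by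
      rw [isBounded_iff_forall_norm_le]
      refine ⟨2, ?_⟩
      rintro _ ⟨z, rfl⟩
      exact hbd z
    have heq : h 0 = h 3 := hdiff.apply_eq_apply_of_bounded hbdd 0 3
    have f1 : 3 * s / 8 ≤ ‖h 0‖ := by
      refine ge_of_tendsto (hh 0).norm (Eventually.of_forall fun k => ?_)
      have e0 : (0 : ℝ) < (1 / 2) ^ k := by positivity
      have e1 := hk8 k 0
      have e3 := (ht k).2.2.1
      have e2 : ‖((t k).c : ℂ) * h0 0‖ = (t k).c * s := by
        rw [ha, norm_mul, Complex.norm_real, Complex.norm_real, Real.norm_of_nonneg (by linarith),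
          Real.norm_of_nonneg hs0.le]
      have e4 : ‖((t k).c : ℂ) * h0 0‖ ≤ ‖(t k).h 0‖ + ‖(t k).h 0 - ((t k).c : ℂ) * h0 0‖ := by
        have : ((t k).c : ℂ) * h0 0 = (t k).h 0 - ((t k).h 0 - ((t k).c : ℂ) * h0 0) := by ring
        conv_lhs => rw [this]
        exact norm_sub_le _ _
      nlinarith
    have f2 : ‖h 3‖ ≤ s / 8 := by
      refine le_of_tendsto (hh 3).norm (Eventually.of_forall fun k => ?_)
      have e1 := hk8 k 3
      rw [hb, mul_zero, sub_zero] at e1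
      exact e1
    rw [heq] at f1
    linarith

end Pool.Agent.X100.QL
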